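import Pool.Agent.Work.MP_db9399_ot_helper29.UPARA

/-! THEOREM OUT, block UPAR: the partners of the vertices of `UH`, in three stages (helper29). -/

set_option autoImplicit false

namespace Pool.Agent.Work.MP_db9399_ot.helper29

open Finset Classical
open Pool.Agent.Work.MP_db9399_ot
open Pool.Agent.Work.MP_db9399_all (nb)
open Pool.Agent.Work.MP_db9399_bg (den cl LabP Ix HPre mem_nb mem_cl c3f c3 mem_c3)
open Pool.Agent.Work.MP_db9399_bg.helper84 (split)
open Pool.Agent.Work.MP_db9399_lc.helper29 (Wm card_Wm)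
open Pool.Agent.Work.MP_db9399_lh (Cr Lh ce su kp io sp pt cr cy inM ty Vd UW VCol third card_zmod)
open Pool.Agent.Work.MP_db9399_lh.helper29 (twoV lsW mem_none mem_some hne0 den_ls upp_gen lsB
  mem_lsB den_lsB)

universe u

theorem stmt_UPAR : Stmt_UPAR.{u} := by
  intro n l m r K K1 S δ hδ hl hm hr hnr hK4 hN1
  obtain ⟨N, hNdef⟩ : ∃ N : ℝ, N = 2 * (m : ℝ) + 1 := ⟨_, rfl⟩
  obtain ⟨Λ, hΛdef⟩ : ∃ Λ : ℝ, Λ = 2 * (l : ℝ) + 1 := ⟨_, rfl⟩
  obtain ⟨R, hRdef⟩ : ∃ R : ℝ, R = (r : ℝ) + 1 := ⟨_, rfl⟩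
  obtain ⟨n1, hn1⟩ : ∃ n1 : ℝ, n1 = (n : ℝ) + 1 := ⟨_, rfl⟩
  have hn0 : (0 : ℝ) ≤ n := Nat.cast_nonneg _
  have hn11 : 1 ≤ n1 := by rw [hn1]; linarith
  have hΛ41 : 41 ≤ Λ := by
    have : (20 : ℝ) ≤ l := by exact_mod_cast hl
    rw [hΛdef]; linarith
  have hRΛ : 20 * Λ ≤ R := by
    have h1 : ((20 * (2 * l + 1) : ℕ) : ℝ) ≤ r := by exact_mod_cast hr
    push_cast at h1
    rw [hΛdef, hRdef]; linarith
  have hR1 : 1 ≤ R := by linarith
  have hNn : 1000 * n1 * R ≤ N := by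
    have h1 : ((1000 * (n + 1) * (r + 1) : ℕ) : ℝ) ≤ ((2 * m + 1 : ℕ) : ℝ) := by
      exact_mod_cast hN1
    push_cast at h1
    rw [hn1, hRdef, hNdef]; exact h1
  have hNR : 1000 * R ≤ N := by
    refine le_trans ?_ hNn
    have h1 : 1000 * 1 * R ≤ 1000 * n1 * R := by gcongr
    linarith
  have hNΛ : 20000 * n1 * Λ ≤ N := by
    refine le_trans ?_ hNn
    have h1 : 1000 * n1 * (20 * Λ) ≤ 1000 * n1 * R := by gcongr
    linarith
  have hNbig : 20000 ≤ N := by linarith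
  have hN3 : 3 ≤ N := by linarith
  have hN0 : 0 < N := by linarith
  have hΛ0 : 0 < Λ := by linarith
  have hn10 : 0 < n1 := by linarith
  have hNΛ1 : 20000 * Λ ≤ N := by
    refine le_trans ?_ hNΛ
    have h1 : 20000 * 1 * Λ ≤ 20000 * n1 * Λ := by gcongr
    linarith
  have hNN : N * Λ ≤ N ^ 2 := by
    rw [pow_two]
    exact mul_le_mul_of_nonneg_left (by linarith) hN0.le
  obtain ⟨dT, hdT⟩ := twoV.{u} (1 / (128 * n1 * N ^ 2)) (δ / (2 * n1)) (by positivity)
    (by positivity)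
  refine ⟨1 / (32 * N ^ 2), 1 / (32 * N), max dT (2000 * (n + 1) * (2 * m + 1) ^ 2),
    by positivity, by positivity, ?_⟩
  intro V _ G H Q Gc d D k w w0 wq wc W1 g gh c1 UH c0 EH tu lab e τ ι e1 sy tp pal c hd hS hH he
    he1 hee hV hι hw0 hwq hwc hw hwl hwc1 hwc2 hw1
  have hdT1 : dT ≤ d := le_trans (le_max_left _ _) hd
  have hd2 : 2000 * n1 * N ^ 2 ≤ (d : ℝ) := by
    have h1 : 2000 * (n + 1) * (2 * m + 1) ^ 2 ≤ d := le_trans (le_max_right _ _) hd
    have h2 : ((2000 * (n + 1) * (2 * m + 1) ^ 2 : ℕ) : ℝ) ≤ d := by exact_mod_cast h1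
    push_cast at h2
    rw [hn1, hNdef]; exact h2
  have hε1 : 1 / (32 * N) ≤ 1 / (24 * Λ) :=
    one_div_le_one_div_of_le (by positivity) (by linarith)
  have hε3 : 1 / (32 * N) ≤ 1 / (2 * Λ) :=
    one_div_le_one_div_of_le (by positivity) (by linarith)
  have hε2 : 1 / (32 * N) ≤ 1 / 10 :=
    one_div_le_one_div_of_le (by positivity) (by linarith)
  have hd2D : (d : ℝ) ≤ 2 * n1 * D := by
    rw [hn1]
    exact hS.cls.d2D (by linarith)
  have hDd : n1 * (D : ℝ) ≤ (1 + 1 / (32 * N)) * d := by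
    rw [hn1]
    exact hS.cls.D_le
  obtain ⟨q, hq⟩ : ∃ q : ℝ, q = (D : ℝ) / N ^ 2 := ⟨_, rfl⟩
  have hqD : (D : ℝ) = q * N ^ 2 := by rw [hq]; field_simp
  have hq1000 : 1000 ≤ q := by
    rw [hq, le_div_iff₀ (by positivity)]
    have h1 : 2 * n1 * (1000 * N ^ 2) ≤ 2 * n1 * D := by linarith
    exact le_of_mul_le_mul_left h1 (by positivity)
  have hq0 : 0 < q := by linarith
  have hD0 : (0 : ℝ) < D := by rw [hqD]; positivity
  have hd0 : (0 : ℝ) < d := lt_of_lt_of_le (by positivity) hd2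
  rw [← hNdef, ← hΛdef] at hw hwl
  rw [← hNdef] at hwc1 hwc2
  rw [← hΛdef] at hw1
  obtain ⟨U1, pr', hU1, hpt, hadj, hinv, hsp⟩ := split hH
  have hdeg : ∀ v, (nb G v).card ≤ d := hS.bl.deg
  have hHG : ∀ {v v'}, H.Adj v v' → G.Adj v v' := fun h => hS.cls.HG h
  have hGG : ∀ {j v v'}, (Gc j).Adj v v' → G.Adj v v' := fun h => hS.cls.GG _ h
  have hH2 : ∀ v, (nb H v ∩ UH).card ≤ 2 := fun v => (card_le_card (inter_subset_inter_right
    (fun x hx => mem_nb.mpr (hHG (mem_nb.mp hx))))).trans (hH.two v)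
  have hC2 : ∀ j v, (nb (Gc j) v ∩ UH).card ≤ 2 := fun j v =>
    (card_le_card (inter_subset_inter_right
    (fun x hx => mem_nb.mpr (hGG (mem_nb.mp hx))))).trans (hH.two v)
  -- the numbers
  obtain ⟨M, hM⟩ : ∃ M : ℕ, M = m * (w0 + 2 * wq) := ⟨_, rfl⟩
  have hMr : N * (M : ℝ) = N * m * (w0 + 2 * wq) := by rw [hM]; push_cast; ring
  have hMu : N * (M : ℝ) ≤ (1 - 1 / (2 * Λ)) * D := by rw [hMr]; exact hw
  have hMl : (1 - 1 / Λ) * D ≤ N * (M : ℝ) := by rw [hMr]; exact hwl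
  obtain ⟨M1, hM1⟩ : ∃ M1 : ℕ, M1 = m * wc := ⟨_, rfl⟩
  have hM1r : N * (M1 : ℝ) = N * m * wc := by rw [hM1]; push_cast; ring
  have hM1u : N * (M1 : ℝ) ≤ (1 + 3 / N) * D := by rw [hM1r]; exact hwc1
  have hM1l : (1 + 1 / (2 * N)) * D ≤ N * (M1 : ℝ) := by rw [hM1r]; exact hwc2
  obtain ⟨tt, htt⟩ : ∃ tt : ℕ, tt = ⌊q / 32⌋₊ := ⟨_, rfl⟩
  have htt1 : (tt : ℝ) ≤ q / 32 := by
    rw [htt]
    exact Nat.floor_le (by positivity)
  have htt3 : q / 64 ≤ (tt : ℝ) := by
    have h1 : q / 32 < tt + 1 := by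
      rw [htt]
      exact Nat.lt_floor_add_one _
    linarith
  have htt2 : 1 / (128 * n1 * N ^ 2) * (d : ℝ) ≤ tt := by
    refine le_trans ?_ htt3
    refine (mul_le_mul_of_nonneg_left hd2D (by positivity)).trans (le_of_eq ?_)
    rw [hqD]; field_simp; norm_num
  have hσΛ : 1 / (32 * N ^ 2) * (D : ℝ) ≤ D / (32 * (N * Λ)) := by
    rw [one_div, inv_mul_eq_div]
    apply div_le_div_of_nonneg_left hD0.le (by positivity)
    linarith
  have httΛ : (tt : ℝ) ≤ (D : ℝ) / (32 * (N * Λ)) := by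
    refine htt1.trans (le_trans (le_of_eq ?_) hσΛ)
    rw [hqD]; field_simp
  have hDΛ : 100 * (N * Λ) ≤ (D : ℝ) := by
    rw [hqD]
    have h1 : 1000 * N ^ 2 ≤ q * N ^ 2 := by gcongr
    linarith
  have hX1 : ∀ j u, (D : ℝ) - 1 / (32 * N) * D ≤ ((nb (Gc j) u).card : ℝ) := fun j u => by
    have := (abs_le.mp (hS.cls.reg j u)).1
    linarith
  have hX2 : ∀ j u, ((nb (Gc j) u).card : ℝ) ≤ (D : ℝ) + 1 / (32 * N) * D := fun j u => by
    have := (abs_le.mp (hS.cls.reg j u)).2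
    linarith
  have hY1 : ∀ u, (1 - 1 / (32 * N)) * (D : ℝ) ≤ ((nb H u).card : ℝ) := hS.bh.low
  have hY2 : ∀ u, ((nb H u).card : ℝ) ≤ D := fun u => by exact_mod_cast hS.bh.deg u
  have hY3 : ∀ u, (1 - 1 / (24 * Λ)) * (D : ℝ) ≤ ((nb H u).card : ℝ) := fun u =>
    le_trans (mul_le_mul_of_nonneg_right (by linarith) hD0.le) (hY1 u)
  have hM15 : 5 ≤ M1 := by
    have h1 : (5 : ℝ) ≤ M1 := by
      have h2 : N * 5 ≤ N * (M1 : ℝ) := by
        refine le_trans ?_ hM1l
        have h3 : 0 ≤ 1 / (2 * N) * (D : ℝ) := by positivity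
        have h4 : N * 41 ≤ N * Λ := mul_le_mul_of_nonneg_left hΛ41 hN0.le
        rw [add_mul, one_mul]
        linarith
      exact le_of_mul_le_mul_left h2 hN0
    exact_mod_cast h1
  have hM5 : 5 ≤ M := by
    have h1 : (5 : ℝ) ≤ M := by
      have h2 : N * 5 ≤ N * (M : ℝ) := by
        refine le_trans ?_ hMl
        have h3 : (1 - 1 / Λ) * (D : ℝ) = (Λ - 1) * (D / Λ) := by field_simp
        have h4 : 100 * N ≤ (D : ℝ) / Λ := by
          rw [le_div_iff₀ hΛ0]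
          linarith
        rw [h3]
        have h5 : 40 * (100 * N) ≤ (Λ - 1) * ((D : ℝ) / Λ) :=
          mul_le_mul (by linarith) h4 (by positivity) (by linarith)
        linarith
      exact le_of_mul_le_mul_left h2 hN0
    exact_mod_cast h1
  -- stage 1: the classes
  obtain ⟨I1, hI1⟩ : ∃ I1 : Fin n → V → Finset (Fin k), I1 = fun j u =>
    univ.filter (fun b => (∃ x, e x = b ∧ ι x.2.2 = some j) ∧ b ≠ c0 u ∧ b ≠ tu u) := ⟨_, rfl⟩
  have hI1m : ∀ j u b, b ∈ I1 j u ↔ (∃ x, e x = b ∧ ι x.2.2 = some j) ∧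
      b ≠ c0 u ∧ b ≠ tu u := by
    intro j u b
    rw [hI1]
    simp only [mem_filter, mem_univ, true_and]
  have hI1c : ∀ j u, (I1 j u).card ≤ d := by
    intro j u
    have h1 : I1 j u ⊆ (univ.filter (fun x : Ix m w => ι x.2.2 = some j)).image e := by
      intro b hb
      obtain ⟨⟨x, hx, hx2⟩, _⟩ := (hI1m j u b).mp hb
      exact mem_image.mpr ⟨x, mem_filter.mpr ⟨mem_univ _, hx2⟩, hx⟩
    refine (card_le_card h1).trans (card_image_le.trans ?_)
    rw [cnt_cv ι wc j (hwc j), ← hM1]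
    have hn2 : 2 ≤ n1 := by
      have h2 : 0 < n := Fin.pos j
      have h3 : (1 : ℝ) ≤ n := by exact_mod_cast h2
      rw [hn1]; linarith
    have h3 : (((2 * m + 1) * M1 : ℕ) : ℝ) ≤ d := by
      push_cast
      rw [← hNdef]
      refine hM1u.trans ?_
      have h4 : 3 / N ≤ 1 / 10 := by rw [div_le_iff₀ hN0]; linarith
      have h5 : 2 * (D : ℝ) ≤ (1 + 1 / 10) * d := by
        refine le_trans ?_ (hDd.trans ?_)
        · exact mul_le_mul_of_nonneg_right hn2 hD0.le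
        · exact mul_le_mul_of_nonneg_right (by linarith) hd0.le
      have h6 : (1 + 3 / N) * (D : ℝ) ≤ (1 + 1 / 10) * D :=
        mul_le_mul_of_nonneg_right (by linarith) hD0.le
      linarith
    exact_mod_cast h3
  obtain ⟨Al1, hAl1⟩ : ∃ Al1 : Fin n → V → Fin k → Finset V, Al1 = fun j u b =>
    (nb G u).filter (fun v => v ∉ UH ∧ ((Gc j).Adj u v ∨
      (H.Adj u v ∧ ((su (lab v) : Fin (r + 1)) : ℕ) = (j : ℕ) + 1 ∧ inM (lab v))) ∧
      ∃ x, e x = b ∧ ι x.2.2 = some j ∧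
        ce (lab v) = x.1 + (((x.2.1 : ℕ) + 1 : ℕ) : ZMod (2 * m + 1))) := ⟨_, rfl⟩
  have hAl1m : ∀ j u b v, v ∈ Al1 j u b ↔ G.Adj u v ∧ v ∉ UH ∧ ((Gc j).Adj u v ∨
      (H.Adj u v ∧ ((su (lab v) : Fin (r + 1)) : ℕ) = (j : ℕ) + 1 ∧ inM (lab v))) ∧
      ∃ x, e x = b ∧ ι x.2.2 = some j ∧
        ce (lab v) = x.1 + (((x.2.1 : ℕ) + 1 : ℕ) : ZMod (2 * m + 1)) := by
    intro j u b v
    rw [hAl1]
    simp only [mem_filter, mem_nb]
  have st1 : ∀ j : Fin n, ∃ f : V → Fin k → V,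
      (∀ u ∈ UH, ∀ b ∈ I1 j u, f u b ∈ Al1 j u b) ∧
      (∀ u ∈ UH, Set.InjOn (f u) (I1 j u : Set (Fin k))) ∧
      (∀ u ∈ UH, ∀ b ∈ I1 j u, b ∈ I1 j (pr' u) → f u b ≠ f (pr' u) b) ∧
      (∀ u ∈ UH, ∀ v, (Gc j).Adj u v → v ∉ UH → ∃ b ∈ I1 j u, f u b = v) ∧
      (∀ v b, (((nb G v).filter (fun x => ∃ u ∈ UH, b ∈ I1 j u ∧ f u b = x)).card : ℝ) ≤
        δ / (2 * n1) * d) ∧
      ∀ u ∈ UH, ∀ z, (((nb H u).filter (fun v => ce (lab v) = z ∧
        ∃ b ∈ I1 j u, f u b = v)).card : ℝ) ≤ 4 * q := by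
    intro j
    have hj1 : (j : ℕ) + 1 < r + 1 := by have := j.2; omega
    obtain ⟨SS, hSS⟩ : ∃ SS : V → Finset V, SS = fun u =>
      univ.filter (fun v => v ∉ UH ∧ (Gc j).Adj u v) := ⟨_, rfl⟩
    have hSm : ∀ u v, v ∈ SS u ↔ v ∉ UH ∧ (Gc j).Adj u v := by
      intro u v
      rw [hSS]
      simp only [mem_filter, mem_univ, true_and]
    obtain ⟨f, hf1, hf2, hf3, hfS, hf4⟩ := hdT G d (M1 + tt) (M1 - 4) tt k UH U1 SS pr' (I1 j)
      (Al1 j) hdT1 htt2 (by omega) hdeg hH.two hU1 hpt hinv hsp (fun u _ => hI1c j u)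
      (fun u _ b hb => by
        refine ⟨fun v hv => mem_nb.mpr ((hAl1m j u b v).mp hv).1, ?_⟩
        obtain ⟨⟨x, hx, hx2⟩, _, _⟩ := (hI1m j u b).mp hb
        obtain ⟨z, hz⟩ : ∃ z : ZMod (2 * m + 1),
          z = x.1 + (((x.2.1 : ℕ) + 1 : ℕ) : ZMod (2 * m + 1)) := ⟨_, rfl⟩
        have g1 := low2 (hS.labc j) (hC2 j) u (pA z)
        have g2 := low2 hS.labH hH2 u (pB z ⟨(j : ℕ) + 1, hj1⟩)
        rw [den_pA, ← hNdef] at g1
        rw [den_pB (by omega), ← hΛdef, ← hNdef, ← hRdef] at g2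
        have g3 := numC1 (M := (M1 : ℝ)) (t := (tt : ℝ)) (X := ((nb (Gc j) u).card : ℝ))
          (Y := ((nb H u).card : ℝ)) hq1000 hΛ41 hR1 hNR
          (by rw [← hqD]; exact hX1 j u) (by rw [← hqD]; exact hY1 u)
          (by rw [← hqD]; exact hM1u) htt1
        rw [← hqD] at g3
        have e3 : 2 * (l : ℝ) - 3 = Λ - 4 := by rw [hΛdef]; ring
        rw [e3] at g2
        have g4 : ((nb (Gc j) u).filter (fun v => v ∉ UH ∧ lab v ∈ pA z)).card +
            ((nb H u).filter (fun v => v ∉ UH ∧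
              lab v ∈ pB z ⟨(j : ℕ) + 1, hj1⟩)).card ≤ (Al1 j u b).card := by
          rw [← card_union_of_disjoint]
          · apply card_le_card
            intro v hv
            rw [mem_union, mem_filter, mem_filter, mem_nb, mem_nb, mem_pA, mem_pB] at hv
            rw [hAl1m]
            rcases hv with ⟨q1, q2, q3⟩ | ⟨q1, q2, q3, q4, q5⟩
            · exact ⟨hGG q1, q2, Or.inl q1, x, hx, hx2, q3.trans hz⟩
            · exact ⟨hHG q1, q2, Or.inr ⟨q1, by rw [q4], q5⟩, x, hx, hx2, q3.trans hz⟩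
          · rw [disjoint_left]
            intro v q1 q2
            rw [mem_filter, mem_nb] at q1 q2
            exact hS.cls.disH j u v q1.1 q2.1
        have g5 : (((nb (Gc j) u).filter (fun v => v ∉ UH ∧ lab v ∈ pA z)).card : ℝ) +
            (((nb H u).filter (fun v => v ∉ UH ∧
              lab v ∈ pB z ⟨(j : ℕ) + 1, hj1⟩)).card : ℝ) ≤ ((Al1 j u b).card : ℝ) := by
          exact_mod_cast g4
        have g6 : ((M1 + tt + 1 : ℕ) : ℝ) ≤ ((Al1 j u b).card : ℝ) := by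
          push_cast
          linarith
        exact_mod_cast g6)
      (fun u _ v => by
        refine Nat.add_le_add_right ?_ _
        have h1 := cnt_c ι wc j (hwc j) (ce (lab v))
        rw [hM1, ← h1]
        refine le_trans (card_le_card (t := (univ.filter (fun x : Ix m w =>
          ι x.2.2 = some j ∧ ce (lab v) =
            x.1 + (((x.2.1 : ℕ) + 1 : ℕ) : ZMod (2 * m + 1)))).image e) ?_) card_image_le
        intro b hb
        rw [mem_filter] at hb
        obtain ⟨_, _, _, x, g1, g2, g3⟩ := (hAl1m j u b v).mp hb.2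
        exact mem_image.mpr ⟨x, mem_filter.mpr ⟨mem_univ _, g2, g3⟩, g1⟩)
      (fun u _ v hv => by
        rw [mem_inter, mem_nb, hSm] at hv
        obtain ⟨g1, g2, g3⟩ := hv
        have h0 := cnt_c ι wc j (hwc j) (ce (lab v))
        have h1 : (univ.filter (fun x : Ix m w => ι x.2.2 = some j ∧ ce (lab v) =
            x.1 + (((x.2.1 : ℕ) + 1 : ℕ) : ZMod (2 * m + 1)))).image e ⊆
            ((I1 j u).filter (fun b => v ∈ Al1 j u b)) ∪ {c0 u, tu u} := by
          intro b hb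
          rw [mem_image] at hb
          obtain ⟨x, hx, hxb⟩ := hb
          rw [mem_filter] at hx
          rw [mem_union, mem_filter, hI1m, hAl1m, mem_insert, mem_singleton]
          by_cases q1 : b = c0 u
          · exact Or.inr (Or.inl q1)
          · by_cases q2 : b = tu u
            · exact Or.inr (Or.inr q2)
            · exact Or.inl ⟨⟨⟨x, hxb, hx.2.1⟩, q1, q2⟩, g1, g2, Or.inl g3, x, hxb, hx.2⟩
        have h2 := (card_le_card h1).trans (card_union_le _ _)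
        have h3 := card_le_two (a := c0 u) (b := tu u)
        rw [card_image_of_injective _ he, h0, ← hM1] at h2
        omega)
      (fun u _ b hb => by
        obtain ⟨⟨x, hx, hx2⟩, _, _⟩ := (hI1m j u b).mp hb
        obtain ⟨z, hz⟩ : ∃ z : ZMod (2 * m + 1),
          z = x.1 + (((x.2.1 : ℕ) + 1 : ℕ) : ZMod (2 * m + 1)) := ⟨_, rfl⟩
        have h1 := upp_gen (hS.labc j) u (pA z) (Al1 j u b ∩ SS u) (by
          intro v hv
          rw [mem_inter, hAl1m, hSm] at hv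
          obtain ⟨⟨_, _, _, x', hx', _, g3⟩, _, g4⟩ := hv
          have hxx : x' = x := he (hx'.trans hx.symm)
          rw [hxx] at g3
          exact ⟨g4, mem_pA.mpr (g3.trans hz.symm)⟩)
        rw [den_pA, ← hNdef] at h1
        have h2 := numC2 (M := (M1 : ℝ)) (t := (tt : ℝ)) (X := ((nb (Gc j) u).card : ℝ))
          hq1000 hN3
          (by rw [← hqD]; exact hX2 j u) (by rw [← hqD]; exact hM1l) htt1
        rw [← hqD] at h2
        have h6 : (((Al1 j u b ∩ SS u).card + tt + 4 : ℕ) : ℝ) ≤ ((M1 : ℕ) : ℝ) := by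
          push_cast
          linarith
        have h7 : (Al1 j u b ∩ SS u).card + tt + 4 ≤ M1 := by exact_mod_cast h6
        omega)
    have hfS' : ∀ u ∈ UH, ∀ v, (Gc j).Adj u v → v ∉ UH → ∃ b ∈ I1 j u, f u b = v :=
      fun u hu v h1 h2 => hfS u hu v (mem_inter.mpr ⟨mem_nb.mpr (hGG h1), (hSm u v).mpr ⟨h2, h1⟩⟩)
    refine ⟨f, hf1, hf2, hf3, hfS', hf4, ?_⟩
    intro u hu z
    have g1 := low2 (hS.labc j) (hC2 j) u (pA z)
    rw [den_pA, ← hNdef] at g1
    have g2 := numC3 (M := (M1 : ℝ)) (X := ((nb (Gc j) u).card : ℝ))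
      (Y := (((nb (Gc j) u).filter (fun v => v ∉ UH ∧ lab v ∈ pA z)).card : ℝ)) hq1000 hN3
      (by rw [← hqD]; exact hX1 j u)
      (by rw [← hqD]; exact hM1u) (by rw [← hqD]; exact g1)
    have g3 : ((nb (Gc j) u).filter (fun v => v ∉ UH ∧ lab v ∈ pA z)).card +
        ((nb H u).filter (fun v => ce (lab v) = z ∧ ∃ b ∈ I1 j u, f u b = v)).card ≤ M1 := by
      rw [← card_union_of_disjoint]
      · rw [hM1, ← cnt_c ι wc j (hwc j) z]
        refine le_trans ?_ (card_image_le (f := e))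
        refine le_trans (card_le_card (t := (((univ.filter (fun x : Ix m w =>
          ι x.2.2 = some j ∧ z = x.1 + (((x.2.1 : ℕ) + 1 : ℕ) : ZMod (2 * m + 1)))).image
          e).filter (fun b => b ∈ I1 j u)).image (f u)) ?_) (card_image_le.trans
          (card_le_card (filter_subset _ _)))
        have key : ∀ v, ce (lab v) = z → (∃ b ∈ I1 j u, f u b = v) →
            v ∈ (((univ.filter (fun x : Ix m w =>
              ι x.2.2 = some j ∧ z = x.1 + (((x.2.1 : ℕ) + 1 : ℕ) : ZMod (2 * m + 1)))).image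
              e).filter (fun b => b ∈ I1 j u)).image (f u) := by
          rintro v q1 ⟨b, q2, q3⟩
          obtain ⟨_, _, _, x, q4, q5, q6⟩ := (hAl1m j u b _).mp (hf1 u hu b q2)
          rw [q3, q1] at q6
          exact mem_image.mpr ⟨b, mem_filter.mpr ⟨mem_image.mpr
            ⟨x, mem_filter.mpr ⟨mem_univ _, q5, q6⟩, q4⟩, q2⟩, q3⟩
        intro v hv
        rw [mem_union, mem_filter, mem_filter, mem_nb, mem_nb, mem_pA] at hv
        rcases hv with ⟨q1, q2, q3⟩ | ⟨q1, q2, q3⟩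
        · exact key v q3 (hfS' u hu v q1 q2)
        · exact key v q2 q3
      · rw [disjoint_left]
        intro v q1 q2
        rw [mem_filter, mem_nb] at q1 q2
        exact hS.cls.disH j u v q1.1 q2.1
    have g4 : (((nb (Gc j) u).filter (fun v => v ∉ UH ∧ lab v ∈ pA z)).card : ℝ) +
        (((nb H u).filter (fun v => ce (lab v) = z ∧ ∃ b ∈ I1 j u, f u b = v)).card : ℝ) ≤
        M1 := by
      exact_mod_cast g3
    linarith
  choose f1 hf11 hf12 hf13 hf14 hf15 hf16 using st1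
  -- the vertices used in stage 1
  obtain ⟨Us, hUs⟩ : ∃ Us : V → Finset V, Us = fun u =>
    univ.filter (fun v => ∃ j, ∃ b ∈ I1 j u, f1 j u b = v) := ⟨_, rfl⟩
  have hUsm : ∀ u v, v ∈ Us u ↔ ∃ j, ∃ b ∈ I1 j u, f1 j u b = v := by
    intro u v
    rw [hUs]
    simp only [mem_filter, mem_univ, true_and]
  have hlossz : ∀ u ∈ UH, ∀ z, (((nb H u).filter (fun v => ce (lab v) = z ∧ v ∈ Us u)).card : ℝ) ≤
      4 * (n * q) := by
    intro u hu z
    have h1 : (nb H u).filter (fun v => ce (lab v) = z ∧ v ∈ Us u) ⊆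
        (univ : Finset (Fin n)).biUnion (fun j => (nb H u).filter (fun v => ce (lab v) = z ∧
          ∃ b ∈ I1 j u, f1 j u b = v)) := by
      intro v hv
      rw [mem_filter, hUsm] at hv
      obtain ⟨q1, q2, j, q3⟩ := hv
      exact mem_biUnion.mpr ⟨j, mem_univ _, mem_filter.mpr ⟨q1, q2, q3⟩⟩
    have h2 := (card_le_card h1).trans card_biUnion_le
    have h3 : (((nb H u).filter (fun v => ce (lab v) = z ∧ v ∈ Us u)).card : ℝ) ≤
        ∑ j : Fin n, (((nb H u).filter (fun v => ce (lab v) = z ∧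
          ∃ b ∈ I1 j u, f1 j u b = v)).card : ℝ) := by
      exact_mod_cast h2
    refine h3.trans ?_
    refine (Finset.sum_le_card_nsmul _ _ (4 * q) (fun j _ => hf16 j u hu z)).trans (le_of_eq ?_)
    rw [card_univ, Fintype.card_fin, nsmul_eq_mul]
    ring
  have hloss : 3 * (4 * ((n : ℝ) * q)) ≤ (D : ℝ) / (1000 * (N * Λ)) := by
    have h1 : (D : ℝ) / (1000 * (N * Λ)) = q * (N / (1000 * Λ)) := by
      rw [hqD]; field_simp
    rw [h1]
    have h2 : 20 * n1 ≤ N / (1000 * Λ) := by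
      rw [le_div_iff₀ (by positivity)]
      linarith
    have h3 : q * (20 * n1) ≤ q * (N / (1000 * Λ)) := mul_le_mul_of_nonneg_left h2 hq0.le
    have h4 : (n : ℝ) * q ≤ n1 * q := mul_le_mul_of_nonneg_right (by rw [hn1]; linarith) hq0.le
    have h5 : 0 ≤ n1 * q := by positivity
    linarith
  -- the index sets
  obtain ⟨IA, hIA⟩ : ∃ IA : V → Finset (Fin k), IA = fun u =>
    univ.filter (fun b => (∃ x, e x = b ∧ ι x.2.2 = none ∧ τ x.2.2 ≠ some (tp u)) ∧
      b ≠ c0 u ∧ b ≠ tu u) := ⟨_, rfl⟩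
  obtain ⟨IB, hIB⟩ : ∃ IB : V → Finset (Fin k), IB = fun u =>
    univ.filter (fun b => b ∈ Set.range e1 ∧ b ≠ c0 u ∧ b ≠ tu u) := ⟨_, rfl⟩
  have hIAm : ∀ u b, b ∈ IA u ↔ (∃ x, e x = b ∧ ι x.2.2 = none ∧ τ x.2.2 ≠ some (tp u)) ∧
      b ≠ c0 u ∧ b ≠ tu u := by
    intro u b
    rw [hIA]
    simp only [mem_filter, mem_univ, true_and]
  have hIBm : ∀ u b, b ∈ IB u ↔ b ∈ Set.range e1 ∧ b ≠ c0 u ∧ b ≠ tu u := by
    intro u b
    rw [hIB]
    simp only [mem_filter, mem_univ, true_and]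
  have hDd1 : (D : ℝ) ≤ (1 + 1 / (32 * N)) * d := by
    refine le_trans ?_ hDd
    have h1 : 1 * (D : ℝ) ≤ n1 * D := mul_le_mul_of_nonneg_right hn11 hD0.le
    linarith
  have hIAc : ∀ u, (IA u).card ≤ d := by
    intro u
    have h1 : IA u ⊆ (univ.filter (fun x : Ix m w => ι x.2.2 = none ∧
        τ x.2.2 ≠ some (tp u))).image e := by
      intro b hb
      obtain ⟨⟨x, hx, hx2⟩, _⟩ := (hIAm u b).mp hb
      exact mem_image.mpr ⟨x, mem_filter.mpr ⟨mem_univ _, hx2⟩, hx⟩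
    refine (card_le_card h1).trans (card_image_le.trans ?_)
    rw [cnt_valid' τ ι w0 wq hι hw0 hwq (tp u), ← hM]
    have h3 : (((2 * m + 1) * M : ℕ) : ℝ) ≤ d := by
      push_cast
      rw [← hNdef]
      refine hMu.trans ?_
      have h4 : 0 ≤ 1 - 1 / (2 * Λ) := by
        have : 1 / (2 * Λ) ≤ 1 := by rw [div_le_one (by positivity)]; linarith
        linarith
      refine (mul_le_mul_of_nonneg_left hDd1 h4).trans ?_
      have h5 : (1 - 1 / (2 * Λ)) * (1 + 1 / (32 * N)) ≤ 1 := by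
        have h6 : 0 ≤ 1 / (2 * Λ) * (1 / (32 * N)) := by positivity
        have h7 : (1 - 1 / (2 * Λ)) * (1 + 1 / (32 * N)) =
            1 - (1 / (2 * Λ) - 1 / (32 * N)) - 1 / (2 * Λ) * (1 / (32 * N)) := by ring
        rw [h7]
        linarith
      rw [← mul_assoc]
      have h8 := mul_le_mul_of_nonneg_right h5 hd0.le
      linarith
    exact_mod_cast h3
  have hIBc : ∀ u, (IB u).card ≤ W1 := by
    intro u
    have h1 : IB u ⊆ univ.image e1 := by
      intro b hb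
      obtain ⟨⟨x, hx⟩, _⟩ := (hIBm u b).mp hb
      exact mem_image.mpr ⟨x, mem_univ _, hx⟩
    refine (card_le_card h1).trans (card_image_le.trans ?_)
    rw [card_univ, Fintype.card_fin]
  have hW1d : W1 ≤ d := by
    have h1 : (W1 : ℝ) ≤ d := by
      refine hw1.trans ?_
      rw [div_le_iff₀ (by positivity)]
      refine hDd1.trans ?_
      have h2 : (1 + 1 / (32 * N)) * (d : ℝ) ≤ (12 * Λ) * d :=
        mul_le_mul_of_nonneg_right (by linarith) hd0.le
      linarith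
    exact_mod_cast h1
  have hcW0 : (((univ : Finset (ZMod (2 * l + 1))).erase 0).card : ℝ) = Λ - 1 := by
    rw [card_erase_of_mem (mem_univ _), card_univ, card_zmod, hΛdef]
    push_cast
    simp
  have hcWm : ((Wm l).card : ℝ) = Λ - 4 := by
    rw [card_Wm l (by omega), Nat.cast_sub (by omega), hΛdef]
    push_cast
    ring
  -- stage 2: the colours e x without class
  obtain ⟨W, hWdef⟩ : ∃ W : Finset (ZMod (2 * l + 1)), W = univ.erase 0 := ⟨_, rfl⟩
  rw [← hWdef] at hcW0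
  have hWm : ∀ z, z ∈ W ↔ z ≠ 0 := by
    intro z
    rw [hWdef, mem_erase]
    simp
  obtain ⟨AlA, hAlA⟩ : ∃ AlA : V → Fin k → Finset V, AlA = fun u b =>
    (nb G u).filter (fun v => H.Adj u v ∧ v ∉ UH ∧ v ∉ Us u ∧
      ∃ x, e x = b ∧ ι x.2.2 = none ∧ τ x.2.2 ≠ some (tp u) ∧
        lab v ∈ lsW (tp u) W (τ x.2.2) x.1 x.2.1) :=
    ⟨_, rfl⟩
  have hAlm : ∀ u b v, v ∈ AlA u b ↔ H.Adj u v ∧ v ∉ UH ∧ v ∉ Us u ∧
      ∃ x, e x = b ∧ ι x.2.2 = none ∧ τ x.2.2 ≠ some (tp u) ∧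
        lab v ∈ lsW (tp u) W (τ x.2.2) x.1 x.2.1 := by
    intro u b v
    rw [hAlA]
    simp only [mem_filter, mem_nb]
    exact ⟨fun h => h.2, fun h => ⟨hHG h.1, h⟩⟩
  obtain ⟨SS, hSS⟩ : ∃ SS : V → Finset V, SS = fun u =>
    univ.filter (fun v => H.Adj u v ∧ v ∉ UH ∧ v ∉ Us u ∧ (pt (lab v) ≠ tp u ∨ inM (lab v))) :=
    ⟨_, rfl⟩
  have hSm : ∀ u v, v ∈ SS u ↔ H.Adj u v ∧ v ∉ UH ∧ v ∉ Us u ∧
      (pt (lab v) ≠ tp u ∨ inM (lab v)) := by
    intro u v
    rw [hSS]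
    simp only [mem_filter, mem_univ, true_and]
  have hMW : ∀ t : Lh l m r K K1 S, inM t → t.1.2.1 ∈ W := by
    intro t ht
    rw [hWm]
    intro h0
    have := ht.1
    rw [h0, ZMod.val_zero] at this
    omega
  have hMm : ∀ t : Lh l m r K K1 S, inM t → t.1.2.1 ∈ Wm l := by
    intro t ht
    unfold Wm
    rw [mem_filter]
    exact ⟨mem_univ _, ht⟩
  have hlcell : ∀ (i : ZMod 3) (W' : Finset (ZMod (2 * l + 1))) (o : Option (ZMod 3))
      (a : ZMod (2 * m + 1)) (h : Fin m) (t : Lh l m r K K1 S), t ∈ lsW i W' o a h →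
      ce t = a + (((h : ℕ) + 1 : ℕ) : ZMod (2 * m + 1)) ∨
      ce t = a - (((h : ℕ) + 1 : ℕ) : ZMod (2 * m + 1)) ∨ ce t = a := by
    intro i W' o a h t ht
    cases o with
    | none => exact Or.inl (mem_none.mp ht).1
    | some j =>
      rcases mem_some.mp ht with g | g
      · rcases g.2 with g' | g'
        · exact Or.inl g'
        · exact Or.inr (Or.inl g')
      · exact Or.inr (Or.inr g.2.2)
  obtain ⟨fA, hfA1, hfA2, hfA3, hfAS, hfA4⟩ := hdT G d (M + tt) (M - 4) tt k UH U1 SS pr' IA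
    AlA hdT1 htt2 (by omega) hdeg hH.two hU1 hpt hinv hsp
    (fun u _ => hIAc u)
    (fun u hu b hb => by
      refine ⟨fun v hv => mem_nb.mpr (hHG ((hAlm u b v).mp hv).1), ?_⟩
      obtain ⟨⟨x, hx, hx1, hx2⟩, _, _⟩ := (hIAm u b).mp hb
      have h1 := low2 hS.labH hH2 u (lsW (tp u) W (τ x.2.2) x.1 x.2.1)
      rw [den_ls _ _ _ hx2, hcW0, ← hNdef, ← hΛdef] at h1
      have h2 := numA2 (M := (M : ℝ)) (t := (tt : ℝ)) hN3 hΛ41 hDΛ (hY3 u) httΛ hMu hσΛ hloss
      have h5 : (nb H u).filter (fun v => v ∉ UH ∧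
          lab v ∈ lsW (tp u) W (τ x.2.2) x.1 x.2.1) ⊆ AlA u b ∪
          (((nb H u).filter (fun v => ce (lab v) =
              x.1 + (((x.2.1 : ℕ) + 1 : ℕ) : ZMod (2 * m + 1)) ∧ v ∈ Us u) ∪
            (nb H u).filter (fun v => ce (lab v) =
              x.1 - (((x.2.1 : ℕ) + 1 : ℕ) : ZMod (2 * m + 1)) ∧ v ∈ Us u)) ∪
            (nb H u).filter (fun v => ce (lab v) = x.1 ∧ v ∈ Us u)) := by
        intro v hv
        rw [mem_filter, mem_nb] at hv
        obtain ⟨g1, g2, g3⟩ := hv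
        rw [mem_union, mem_union, mem_union, mem_filter, mem_filter, mem_filter, mem_nb]
        by_cases g4 : v ∈ Us u
        · rcases hlcell _ _ _ _ _ _ g3 with g5 | g5 | g5
          · exact Or.inr (Or.inl (Or.inl ⟨g1, g5, g4⟩))
          · exact Or.inr (Or.inl (Or.inr ⟨g1, g5, g4⟩))
          · exact Or.inr (Or.inr ⟨g1, g5, g4⟩)
        · exact Or.inl ((hAlm u b v).mpr ⟨g1, g2, g4, x, hx, hx1, hx2, g3⟩)
      have h6 := (card_le_card h5).trans ((card_union_le _ _).trans (Nat.add_le_add_left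
        ((card_union_le _ _).trans (Nat.add_le_add_right (card_union_le _ _) _)) _))
      have h7 : (((nb H u).filter (fun v => v ∉ UH ∧
          lab v ∈ lsW (tp u) W (τ x.2.2) x.1 x.2.1)).card : ℝ) ≤ ((AlA u b).card : ℝ) +
          ((((nb H u).filter (fun v => ce (lab v) =
              x.1 + (((x.2.1 : ℕ) + 1 : ℕ) : ZMod (2 * m + 1)) ∧ v ∈ Us u)).card : ℝ) +
            (((nb H u).filter (fun v => ce (lab v) =
              x.1 - (((x.2.1 : ℕ) + 1 : ℕ) : ZMod (2 * m + 1)) ∧ v ∈ Us u)).card : ℝ) +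
            (((nb H u).filter (fun v => ce (lab v) = x.1 ∧ v ∈ Us u)).card : ℝ)) := by
        exact_mod_cast h6
      have k1 := hlossz u hu (x.1 + (((x.2.1 : ℕ) + 1 : ℕ) : ZMod (2 * m + 1)))
      have k2 := hlossz u hu (x.1 - (((x.2.1 : ℕ) + 1 : ℕ) : ZMod (2 * m + 1)))
      have k3 := hlossz u hu x.1
      have h8 : ((M + tt + 1 : ℕ) : ℝ) ≤ ((AlA u b).card : ℝ) := by
        push_cast
        linarith
      exact_mod_cast h8)
    (fun u _ v => by
      refine Nat.add_le_add_right ?_ _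
      by_cases ht : pt (lab v) ≠ tp u ∨ (lab v).1.2.1 ∈ W
      · have h1 := cnt_x' τ ι w0 wq hι hw0 hwq (tp u) W (lab v) ht
        rw [hM, ← h1]
        refine le_trans (card_le_card (t := (univ.filter (fun x : Ix m w => ι x.2.2 = none ∧
          τ x.2.2 ≠ some (tp u) ∧ lab v ∈ lsW (tp u) W (τ x.2.2) x.1 x.2.1)).image e) ?_)
          card_image_le
        intro b hb
        rw [mem_filter] at hb
        obtain ⟨_, _, _, x, g1, g2, g3⟩ := (hAlm u b v).mp hb.2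
        exact mem_image.mpr ⟨x, mem_filter.mpr ⟨mem_univ _, g2, g3⟩, g1⟩
      · push Not at ht
        have h1 : (IA u).filter (fun b => v ∈ AlA u b) = ∅ := by
          rw [filter_eq_empty_iff]
          intro b _ hb
          obtain ⟨_, _, _, x, g1, _, g2, g3⟩ := (hAlm u b v).mp hb
          cases hτ : τ x.2.2 with
          | none =>
            rw [hτ, mem_none] at g3
            rcases g3.2 with g4 | g4
            · exact g4 ht.1
            · exact ht.2 g4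
          | some j =>
            rw [hτ, mem_some] at g3
            rw [hτ] at g2
            rcases g3 with g4 | g4
            · exact ((third (tp u) j _ (fun g => g2 (by rw [g]))).mpr g4.1).1 ht.1
            · exact ht.2 g4.2.1
        rw [h1, card_empty]
        exact Nat.zero_le _)
    (fun u _ v hv => by
      rw [mem_inter, mem_nb, hSm] at hv
      obtain ⟨_, g1, g2, g2', g3⟩ := hv
      have ht : pt (lab v) ≠ tp u ∨ (lab v).1.2.1 ∈ W := g3.imp id (hMW _)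
      have h0 := cnt_x' τ ι w0 wq hι hw0 hwq (tp u) W (lab v) ht
      have h1 : (univ.filter (fun x : Ix m w => ι x.2.2 = none ∧
          τ x.2.2 ≠ some (tp u) ∧ lab v ∈ lsW (tp u) W (τ x.2.2) x.1 x.2.1)).image e ⊆
          ((IA u).filter (fun b => v ∈ AlA u b)) ∪ {c0 u, tu u} := by
        intro b hb
        rw [mem_image] at hb
        obtain ⟨x, hx, hxb⟩ := hb
        rw [mem_filter] at hx
        rw [mem_union, mem_filter, hIAm, hAlm, mem_insert, mem_singleton]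
        by_cases q1 : b = c0 u
        · exact Or.inr (Or.inl q1)
        · by_cases q2 : b = tu u
          · exact Or.inr (Or.inr q2)
          · exact Or.inl ⟨⟨⟨x, hxb, hx.2.1, hx.2.2.1⟩, q1, q2⟩, g1, g2, g2', x, hxb, hx.2⟩
      have h2 := (card_le_card h1).trans (card_union_le _ _)
      have h3 := card_le_two (a := c0 u) (b := tu u)
      rw [card_image_of_injective _ he, h0, ← hM] at h2
      omega)
    (fun u _ b hb => by
      obtain ⟨⟨x, hx, hx1, hx2⟩, _, _⟩ := (hIAm u b).mp hb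
      have h1 := upp_gen hS.labH u (lsW (tp u) (Wm l) (τ x.2.2) x.1 x.2.1) (AlA u b ∩ SS u) (by
        intro v hv
        rw [mem_inter, hAlm, hSm] at hv
        obtain ⟨⟨g1, _, _, x', hx', _, g2, g3⟩, _, _, _, g4⟩ := hv
        have hxx : x' = x := he (hx'.trans hx.symm)
        rw [hxx] at g3
        refine ⟨g1, ?_⟩
        cases hτ : τ x.2.2 with
        | none =>
          rw [hτ, mem_none] at g3
          rw [mem_none]
          exact ⟨g3.1, g4.imp id (hMm _)⟩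
        | some j =>
          rw [hτ, mem_some] at g3
          rw [mem_some]
          rcases g3 with g5 | g5
          · exact Or.inl g5
          · exact Or.inr ⟨g5.1, hMm _ (g4.resolve_left (fun g => g g5.1)), g5.2.2⟩)
      rw [den_ls _ _ _ hx2, hcWm, ← hNdef, ← hΛdef] at h1
      have h2 := numS2 (M := (M : ℝ)) (t := (tt : ℝ)) hN3 hΛ41 hDΛ (hY2 u) httΛ hMl hσΛ
      have h6 : (((AlA u b ∩ SS u).card + tt + 4 : ℕ) : ℝ) ≤ ((M : ℕ) : ℝ) := by
        push_cast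
        linarith
      have h7 : (AlA u b ∩ SS u).card + tt + 4 ≤ M := by exact_mod_cast h6
      omega)
  -- stage 3: the colours e1 y
  obtain ⟨AlB, hAlB⟩ : ∃ AlB : V → Fin k → Finset V, AlB = fun u b =>
    (nb G u).filter (fun v => H.Adj u v ∧ v ∉ UH ∧
      ∃ y, e1 y = b ∧ lab v ∈ lsB (tp u) (sy y).1 (sy y).2) := ⟨_, rfl⟩
  have hAlmB : ∀ u b v, v ∈ AlB u b ↔ H.Adj u v ∧ v ∉ UH ∧
      ∃ y, e1 y = b ∧ lab v ∈ lsB (tp u) (sy y).1 (sy y).2 := by
    intro u b v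
    rw [hAlB]
    simp only [mem_filter, mem_nb]
    exact ⟨fun h => h.2, fun h => ⟨hHG h.1, h⟩⟩
  obtain ⟨fB, hfB1, hfB2, hfB3, _, hfB4⟩ := hdT G d (W1 + tt) (tt + 1) tt k UH U1
    (fun _ => ∅) pr' IB AlB hdT1 htt2 (by omega) hdeg hH.two hU1 hpt hinv hsp
    (fun u _ => (hIBc u).trans hW1d)
    (fun u _ b hb => by
      refine ⟨fun v hv => mem_nb.mpr (hHG ((hAlmB u b v).mp hv).1), ?_⟩
      obtain ⟨⟨y, hy⟩, _, _⟩ := (hIBm u b).mp hb
      have h1 := low2 hS.labH hH2 u (lsB (tp u) (sy y).1 (sy y).2)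
      have h0 := mul_le_mul_of_nonneg_right (den_lsB (l := l) (m := m) (r := r) (K := K)
        (S := S) hK4 (tp u) (sy y).1 (sy y).2) (Nat.cast_nonneg (α := ℝ) (nb H u).card)
      rw [← hΛdef] at h0
      have h2 := numB2 hN3 hΛ41 hDΛ (hY3 u) hw1 httΛ hσΛ
      have h4 : (((nb H u).filter (fun v => v ∉ UH ∧
          lab v ∈ lsB (tp u) (sy y).1 (sy y).2)).card : ℝ) ≤
          ((AlB u b).card : ℝ) := by
        have h5 : (nb H u).filter (fun v => v ∉ UH ∧
          lab v ∈ lsB (tp u) (sy y).1 (sy y).2) ⊆ AlB u b := by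
          intro v hv
          rw [mem_filter, mem_nb] at hv
          obtain ⟨g1, g2, g3⟩ := hv
          exact (hAlmB u b v).mpr ⟨g1, g2, y, hy, g3⟩
        exact_mod_cast card_le_card h5
      have h6 : ((W1 + tt + 1 : ℕ) : ℝ) ≤ ((AlB u b).card : ℝ) := by
        push_cast
        linarith
      exact_mod_cast h6)
    (fun u _ v => Nat.add_le_add_right ((card_le_card (filter_subset _ _)).trans (hIBc u)) _)
    (fun u _ v hv => absurd (mem_inter.mp hv).2 (notMem_empty v))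
    (fun u _ b hb => by
      rw [inter_empty, card_empty]
      omega)
  -- the partners
  obtain ⟨wv, hwv⟩ : ∃ wv : V → Fin k → V, wv = fun u b =>
    if h : ∃ j, ∃ x, e x = b ∧ ι x.2.2 = some j then f1 h.choose u b
    else if b ∈ Set.range e then fA u b else fB u b := ⟨_, rfl⟩
  have hwC : ∀ u x j, ι x.2.2 = some j → wv u (e x) = f1 j u (e x) := by
    intro u x j hj
    have h : ∃ j, ∃ x', e x' = e x ∧ ι x'.2.2 = some j := ⟨j, x, rfl, hj⟩
    have h1 : h.choose = j := by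
      obtain ⟨x', h2, h3⟩ := h.choose_spec
      rw [he h2, hj] at h3
      exact (Option.some_inj.mp h3).symm
    rw [hwv]
    simp only
    rw [dif_pos h, h1]
  have hwA : ∀ u x, ι x.2.2 = none → wv u (e x) = fA u (e x) := by
    intro u x hx
    have h : ¬ ∃ j, ∃ x', e x' = e x ∧ ι x'.2.2 = some j := by
      rintro ⟨j, x', h2, h3⟩
      rw [he h2, hx] at h3
      exact absurd h3 (by simp)
    rw [hwv]
    simp only
    rw [dif_neg h, if_pos ⟨x, rfl⟩]
  have hwB : ∀ u y, wv u (e1 y) = fB u (e1 y) := by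
    intro u y
    have h : ¬ ∃ j, ∃ x', e x' = e1 y ∧ ι x'.2.2 = some j := by
      rintro ⟨j, x', h2, h3⟩
      exact hee _ _ h2
    rw [hwv]
    simp only
    rw [dif_neg h, if_neg (by rintro ⟨x, hx⟩; exact hee _ _ hx)]
  have hIAi : ∀ u x, ι x.2.2 = none → τ x.2.2 ≠ some (tp u) → e x ≠ c0 u → e x ≠ tu u →
      e x ∈ IA u := fun u x h1 h2 h3 h4 => (hIAm u _).mpr ⟨⟨x, rfl, h1, h2⟩, h3, h4⟩
  have hI1i : ∀ u x j, ι x.2.2 = some j → e x ≠ c0 u → e x ≠ tu u →
      e x ∈ I1 j u := fun u x j h1 h3 h4 => (hI1m j u _).mpr ⟨⟨x, rfl, h1⟩, h3, h4⟩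
  have hIBi : ∀ u y, e1 y ≠ c0 u → e1 y ≠ tu u → e1 y ∈ IB u :=
    fun u y h3 h4 => (hIBm u _).mpr ⟨⟨y, rfl⟩, h3, h4⟩
  have memC : ∀ u ∈ UH, ∀ x j, ι x.2.2 = some j → e x ≠ c0 u → e x ≠ tu u →
      G.Adj u (wv u (e x)) ∧ wv u (e x) ∉ UH ∧ ((Gc j).Adj u (wv u (e x)) ∨
        (H.Adj u (wv u (e x)) ∧ ((su (lab (wv u (e x))) : Fin (r + 1)) : ℕ) = (j : ℕ) + 1 ∧
          inM (lab (wv u (e x))))) ∧
      ce (lab (wv u (e x))) = x.1 + (((x.2.1 : ℕ) + 1 : ℕ) : ZMod (2 * m + 1)) ∧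
      wv u (e x) ∈ Us u := by
    intro u hu x j hj h1 h2
    have h0 := hI1i u x j hj h1 h2
    have h4 := hf11 j u hu (e x) h0
    rw [hAl1m] at h4
    rw [hwC u x j hj]
    obtain ⟨g1, g2, g3, x', g4, _, g5⟩ := h4
    rw [he g4] at g5
    exact ⟨g1, g2, g3, g5, (hUsm u _).mpr ⟨j, e x, h0, rfl⟩⟩
  have memA : ∀ u ∈ UH, ∀ x, ι x.2.2 = none → e x ≠ c0 u → e x ≠ tu u →
      τ x.2.2 ≠ some (tp u) → H.Adj u (wv u (e x)) ∧ wv u (e x) ∉ UH ∧ wv u (e x) ∉ Us u ∧
      lab (wv u (e x)) ∈ lsW (tp u) W (τ x.2.2) x.1 x.2.1 := by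
    intro u hu x h0 h1 h2 h3
    have h4 := hfA1 u hu (e x) (hIAi u x h0 h3 h1 h2)
    rw [hAlm] at h4
    rw [hwA u x h0]
    obtain ⟨g1, g2, g2', x', g3, _, g4, g5⟩ := h4
    rw [he g3] at g5
    exact ⟨g1, g2, g2', g5⟩
  have notA : ∀ (i : ZMod 3) (x : Ix m w) (t : Lh l m r K K1 S), τ x.2.2 ≠ some i →
      t ∈ lsW i W (τ x.2.2) x.1 x.2.1 → ¬ (t.1.2.1 = 0 ∧ pt t = i) := by
    rintro i x t h1 h2 ⟨h3, h4⟩
    cases hτ : τ x.2.2 with
    | none =>
      rw [hτ, mem_none] at h2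
      rcases h2.2 with g | g
      · exact g h4
      · exact (hWm _).mp g h3
    | some j =>
      rw [hτ, mem_some] at h2
      rw [hτ] at h1
      rcases h2 with g | g
      · exact ((third i j _ (fun g' => h1 (by rw [g']))).mpr g.1).1 h4
      · exact (hWm _).mp g.2.1 h3
  have memB : ∀ u ∈ UH, ∀ y, e1 y ≠ c0 u → e1 y ≠ tu u →
      H.Adj u (wv u (e1 y)) ∧ wv u (e1 y) ∉ UH ∧
      lab (wv u (e1 y)) ∈ lsB (tp u) (sy y).1 (sy y).2 := by
    intro u hu y h1 h2
    have h4 := hfB1 u hu (e1 y) (hIBi u y h1 h2)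
    rw [hAlmB] at h4
    rw [hwB u y]
    obtain ⟨g1, g2, y', g3, g4⟩ := h4
    rw [he1 g3] at g4
    exact ⟨g1, g2, g4⟩
  have hadjw : ∀ u ∈ UH, ∀ b, b ≠ c0 u → b ≠ tu u → Vd e τ e1 (tp u) b →
      G.Adj u (wv u b) ∧ wv u b ∉ UH := by
    intro u hu b h1 h2 h3
    rcases h3 with ⟨x, rfl, hx⟩ | ⟨y, rfl⟩
    · cases hi : ι x.2.2 with
      | some j => exact ⟨(memC u hu x j hi h1 h2).1, (memC u hu x j hi h1 h2).2.1⟩
      | none => exact ⟨hHG (memA u hu x hi h1 h2 hx).1, (memA u hu x hi h1 h2 hx).2.1⟩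
    · exact ⟨hHG (memB u hu y h1 h2).1, (memB u hu y h1 h2).2.1⟩
  -- colours of the classes and other colours have different partners
  have dCA : ∀ u ∈ UH, ∀ x j, ι x.2.2 = some j → e x ≠ c0 u → e x ≠ tu u →
      ∀ x', ι x'.2.2 = none → e x' ≠ c0 u → e x' ≠ tu u → τ x'.2.2 ≠ some (tp u) →
      wv u (e x) ≠ wv u (e x') := by
    intro u hu x j hj h1 h2 x' hx' h1' h2' h3' h4
    have g1 := (memC u hu x j hj h1 h2).2.2.2.2
    rw [h4] at g1
    exact (memA u hu x' hx' h1' h2' h3').2.2.1 g1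
  have dCB : ∀ u ∈ UH, ∀ x j, ι x.2.2 = some j → e x ≠ c0 u → e x ≠ tu u →
      ∀ y, e1 y ≠ c0 u → e1 y ≠ tu u → wv u (e x) ≠ wv u (e1 y) := by
    intro u hu x j hj h1 h2 y h1' h2' h4
    have g1 := (memC u hu x j hj h1 h2).2.2.1
    rw [h4] at g1
    have g2 := memB u hu y h1' h2'
    rcases g1 with g1 | ⟨_, _, g1⟩
    · exact hS.cls.disH j u _ g1 g2.1
    · have g3 := g1.1
      rw [(mem_lsB.mp g2.2.2).1, ZMod.val_zero] at g3
      omega
  have dAB : ∀ u ∈ UH, ∀ x, ι x.2.2 = none → e x ≠ c0 u → e x ≠ tu u →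
      τ x.2.2 ≠ some (tp u) → ∀ y, e1 y ≠ c0 u → e1 y ≠ tu u → wv u (e x) ≠ wv u (e1 y) := by
    intro u hu x hx h1 h2 h3 y h1' h2' h4
    have g1 := notA (tp u) x _ h3 (memA u hu x hx h1 h2 h3).2.2.2
    have g2 := mem_lsB.mp (memB u hu y h1' h2').2.2
    rw [h4] at g1
    exact g1 ⟨g2.1, g2.2.1⟩
  have dCC : ∀ u ∈ UH, ∀ x j, ι x.2.2 = some j → e x ≠ c0 u → e x ≠ tu u →
      ∀ x' j', ι x'.2.2 = some j' → e x' ≠ c0 u → e x' ≠ tu u →
      wv u (e x) = wv u (e x') → j = j' := by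
    intro u hu x j hj h1 h2 x' j' hj' h1' h2' h4
    by_contra hjj
    have g1 := (memC u hu x j hj h1 h2).2.2.1
    have g2 := (memC u hu x' j' hj' h1' h2').2.2.1
    rw [h4] at g1
    rcases g1 with g1 | ⟨g1, g1', _⟩
    · rcases g2 with g2 | ⟨g2, _, _⟩
      · exact hS.cls.dis j j' hjj u _ g1 g2
      · exact hS.cls.disH j u _ g1 g2
    · rcases g2 with g2 | ⟨g2, g2', _⟩
      · exact hS.cls.disH j' u _ g2 g1
      · apply hjj
        apply Fin.ext
        omega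
  refine ⟨wv, ?_, ?_, ?_, ?_, ?_, ?_, ?_, ?_, ?_⟩
  · intro u hu b h1 h2 h3
    obtain ⟨q1, q2⟩ := hadjw u hu b h1 h2 h3
    refine ⟨q1, q2, ?_⟩
    rcases h3 with ⟨x, rfl, hx⟩ | ⟨y, rfl⟩
    · intro h4
      obtain ⟨y, hy1, _, hy2⟩ := hV.cP _ q2
      have h5 : (ce (lab (wv u (e x))), y) = x := he (hy1.symm.trans h4)
      have h6 : ce (lab (wv u (e x))) = x.1 := congrArg Prod.fst h5
      have h7 : τ x.2.2 = none := by rw [← h5]; exact hy2
      apply hne0 (m := m) x.2.1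
      cases hi : ι x.2.2 with
      | some j =>
        have g3 := (memC u hu x j hi h1 h2).2.2.2.1
        rw [h6] at g3
        linear_combination -g3
      | none =>
        have g3 := (memA u hu x hi h1 h2 hx).2.2.2
        rw [h7, mem_none, h6] at g3
        linear_combination -g3.1
    · obtain ⟨z, hz, _⟩ := hV.cP _ q2
      rw [hz]
      exact hee _ _
  · intro u hu x h1 h2 h3
    cases hi : ι x.2.2 with
    | some j =>
      rcases (memC u hu x j hi h1 h2).2.2.1 with g | g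
      · exact Or.inr ⟨j, rfl, g⟩
      · exact Or.inl g.1
    | none => exact Or.inl (memA u hu x hi h1 h2 h3).1
  · intro u hu y h1 h2
    exact (memB u hu y h1 h2).1
  · intro u hu b b' h1 h2 h1' h2' h3 h3' h4
    rcases h3 with ⟨x, rfl, hx⟩ | ⟨y, rfl⟩
    · rcases h3' with ⟨x', rfl, hx'⟩ | ⟨y', rfl⟩
      · cases hi : ι x.2.2 with
        | some j =>
          cases hi' : ι x'.2.2 with
          | some j' =>
            have hjj := dCC u hu x j hi h1 h2 x' j' hi' h1' h2' h4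
            rw [← hjj] at hi'
            rw [hwC u x j hi, hwC u x' j hi'] at h4
            exact hf12 j u hu (mem_coe.mpr (hI1i u x j hi h1 h2))
              (mem_coe.mpr (hI1i u x' j hi' h1' h2')) h4
          | none => exact absurd h4 (dCA u hu x j hi h1 h2 x' hi' h1' h2' hx')
        | none =>
          cases hi' : ι x'.2.2 with
          | some j' => exact absurd h4.symm (dCA u hu x' j' hi' h1' h2' x hi h1 h2 hx)
          | none =>
            rw [hwA u x hi, hwA u x' hi'] at h4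
            exact hfA2 u hu (mem_coe.mpr (hIAi u x hi hx h1 h2))
              (mem_coe.mpr (hIAi u x' hi' hx' h1' h2')) h4
      · exfalso
        cases hi : ι x.2.2 with
        | some j => exact dCB u hu x j hi h1 h2 y' h1' h2' h4
        | none => exact dAB u hu x hi h1 h2 hx y' h1' h2' h4
    · rcases h3' with ⟨x', rfl, hx'⟩ | ⟨y', rfl⟩
      · exfalso
        cases hi : ι x'.2.2 with
        | some j => exact dCB u hu x' j hi h1' h2' y h1 h2 h4.symm
        | none => exact dAB u hu x' hi h1' h2' hx' y h1 h2 h4.symm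
      · rw [hwB u y, hwB u y'] at h4
        exact hfB2 u hu (mem_coe.mpr (hIBi u y h1 h2)) (mem_coe.mpr (hIBi u y' h1' h2')) h4
  · intro u hu u' hu' b h1 h2 h1' h2' h3 h3' h4
    have g1 : G.Adj u (wv u b) := (hadjw u hu b h1 h2 h3).1
    have g2 : G.Adj u' (wv u' b) := (hadjw u' hu' b h1' h2' h3').1
    rw [← h4] at g2
    rcases hH.far (wv u b) u hu u' hu' g1.symm g2.symm with h5 | h5
    · exact h5
    · exfalso
      have h6 : u' = pr' u := hadj u u' hu h5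
      rw [h6] at h4 h1' h2' h3'
      rcases h3 with ⟨x, rfl, hx⟩ | ⟨y, rfl⟩
      · have hx' : τ x.2.2 ≠ some (tp (pr' u)) := by
          rcases h3' with ⟨x', hx1, hx2⟩ | ⟨y, hy⟩
          · rw [← he hx1]
            exact hx2
          · exact absurd hy.symm (hee x y)
        cases hi : ι x.2.2 with
        | some j =>
          rw [hwC u x j hi, hwC _ x j hi] at h4
          exact hf13 j u hu _ (hI1i u x j hi h1 h2) (hI1i _ x j hi h1' h2') h4
        | none =>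
          rw [hwA u x hi, hwA _ x hi] at h4
          exact hfA3 u hu _ (hIAi u x hi hx h1 h2) (hIAi _ x hi hx' h1' h2') h4
      · rw [hwB u y, hwB _ y] at h4
        exact hfB3 u hu _ (hIBi u y h1 h2) (hIBi _ y h1' h2') h4
  · intro u hu x h1 h2 h3
    cases hi : ι x.2.2 with
    | some j =>
      have g1 := (memC u hu x j hi h1 h2).2.2.2.1
      have g2 : τ x.2.2 = none := hι _ (by rw [hi]; simp)
      rw [mem_c3, g2]
      exact ⟨Or.inr (Or.inl g1), by simp⟩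
    | none =>
      have g1 := (memA u hu x hi h1 h2 h3).2.2.2
      rw [mem_c3]
      cases hτ : τ x.2.2 with
      | none =>
        rw [hτ, mem_none] at g1
        exact ⟨Or.inr (Or.inl g1.1), by simp⟩
      | some j =>
        rw [hτ, mem_some] at g1
        rw [hτ] at h3
        have hij : tp u ≠ j := fun g => h3 (by rw [g])
        rcases g1 with ⟨g2, g3⟩ | ⟨g2, _, g3⟩
        · refine ⟨g3.elim (fun g => Or.inr (Or.inl g)) (fun g => Or.inr (Or.inr g)), ?_⟩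
          intro g4
          exact ((third (tp u) j _ hij).mpr g2).2 (Option.some_inj.mp g4).symm
        · refine ⟨Or.inl g3, ?_⟩
          intro g4
          exact hij (g2.symm.trans (Option.some_inj.mp g4).symm)
  · intro u hu y h1 h2
    exact (mem_lsB.mp (memB u hu y h1 h2).2.2).2.2
  · intro u hu v h1 h2 h3
    have hcase : (∃ j, ∃ b ∈ I1 j u, f1 j u b = v) → ∃ x, τ x.2.2 ≠ some (tp u) ∧
        e x ≠ c0 u ∧ e x ≠ tu u ∧ wv u (e x) = v := by
      rintro ⟨j, b, hb, hfb⟩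
      obtain ⟨⟨x, hx, hx2⟩, g1, g2⟩ := (hI1m j u b).mp hb
      have g3 : τ x.2.2 = none := hι _ (by rw [hx2]; simp)
      refine ⟨x, by rw [g3]; simp, by rw [hx]; exact g1, by rw [hx]; exact g2, ?_⟩
      rw [hwC u x j hx2, hx]
      exact hfb
    by_cases hHA : H.Adj u v
    · have h3' : pt (lab v) ≠ tp u ∨ inM (lab v) := h3.resolve_left (fun g => g hHA)
      by_cases hv : v ∈ Us u
      · exact hcase ((hUsm u v).mp hv)
      · obtain ⟨b, hb, hfb⟩ := hfAS u hu v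
          (mem_inter.mpr ⟨mem_nb.mpr h1, (hSm u v).mpr ⟨hHA, h2, hv, h3'⟩⟩)
        obtain ⟨⟨x, hx, hx1, hx2⟩, g1, g2⟩ := (hIAm u b).mp hb
        refine ⟨x, hx2, by rw [hx]; exact g1, by rw [hx]; exact g2, ?_⟩
        rw [hwA u x hx1, hx]
        exact hfb
    · rcases hS.cls.cov u v h1 with g | ⟨j, g⟩
      · exact absurd g hHA
      · obtain ⟨b, hb, hfb⟩ := hf14 j u hu v g h2
        exact hcase ⟨j, b, hb, hfb⟩
  · intro v b
    have hfin : δ / (2 * n1) * d ≤ δ * D := by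
      rw [div_mul_eq_mul_div, div_le_iff₀ (by positivity)]
      have := mul_le_mul_of_nonneg_left hd2D hδ.le
      linarith
    have hgen : ∀ (I : V → Finset (Fin k)) (f : V → Fin k → V),
        (∀ v b, (((nb G v).filter (fun x => ∃ u ∈ UH, b ∈ I u ∧ f u b = x)).card : ℝ) ≤
          δ / (2 * n1) * d) →
        (∀ u ∈ UH, Vd e τ e1 (tp u) b → b ≠ c0 u → b ≠ tu u → b ∈ I u ∧ wv u b = f u b) →
        ((nb G v ∩ UW UH c0 tu e τ e1 tp wv b).card : ℝ) ≤ δ * D := by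
      intro I f hf hI
      refine le_trans ?_ ((hf v b).trans hfin)
      have h1 : nb G v ∩ UW UH c0 tu e τ e1 tp wv b ⊆
          (nb G v).filter (fun x => ∃ u ∈ UH, b ∈ I u ∧ f u b = x) := by
        intro x hx
        unfold UW at hx
        rw [mem_inter, mem_filter] at hx
        obtain ⟨hx1, _, u, hu, g0, g1, g2, g3⟩ := hx
        obtain ⟨k1, k2⟩ := hI u hu g0 g1 g2
        rw [mem_filter]
        exact ⟨hx1, u, hu, k1, by rw [← k2]; exact g3⟩
      exact_mod_cast card_le_card h1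
    by_cases hb : ∃ x, e x = b
    · obtain ⟨x, rfl⟩ := hb
      cases hi : ι x.2.2 with
      | some j =>
        exact hgen (I1 j) (f1 j) (hf15 j) (fun u _ _ g1 g2 =>
          ⟨hI1i u x j hi g1 g2, hwC u x j hi⟩)
      | none =>
        refine hgen IA fA hfA4 (fun u _ g0 g1 g2 => ⟨hIAi u x hi ?_ g1 g2, hwA u x hi⟩)
        rcases g0 with ⟨x', hx1, hx2⟩ | ⟨y, hy⟩
        · rw [← he hx1]
          exact hx2
        · exact absurd hy.symm (hee x y)
    · refine hgen IB fB hfB4 (fun u _ g0 g1 g2 => ?_)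
      rcases g0 with ⟨x', hx1, hx2⟩ | ⟨y, rfl⟩
      · exact absurd ⟨x', hx1⟩ hb
      · exact ⟨hIBi u y g1 g2, hwB u y⟩

end Pool.Agent.Work.MP_db9399_ot.helper29
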