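import Pool.Agent.Work.MP_db9399_ot.Base
import Pool.Agent.Work.MP_db9399_lh_helper29.UPAR

/-! THEOREM OUT, block UPAR, part 1: counting and numbers (helper29). -/

set_option autoImplicit false

namespace Pool.Agent.Work.MP_db9399_ot.helper29

open Finset Classical
open Pool.Agent.Work.MP_db9399_all (nb)
open Pool.Agent.Work.MP_db9399_bg (den cl LabP Ix mem_nb mem_cl)
open Pool.Agent.Work.MP_db9399_lc.helper29 (Wm card_Wm)
open Pool.Agent.Work.MP_db9399_lh (Cr Lh ce su kp io sp pt cr cy inM mem_cy bb mem_bb den_bb den_cy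
  third card_zmod card_core)
open Pool.Agent.Work.MP_db9399_lh.helper29 (lsW Fc sum_Fc cnt_a card_Ix)

universe u

section cnt
variable {l m r K K1 S : ℕ}

theorem sum_types' {w n : ℕ} (τ : Fin w → Option (ZMod 3)) (ι : Fin w → Option (Fin n))
    (w0 wq : ℕ) (hι : ∀ s, ι s ≠ none → τ s = none)
    (h0 : (univ.filter (fun s => ι s = none ∧ τ s = none)).card = w0)
    (hq : ∀ j, (univ.filter (fun s => τ s = some j)).card = wq) (F : Option (ZMod 3) → ℕ) :
    ∑ s, (if ι s = none then F (τ s) else 0) = w0 * F none + wq * ∑ j : ZMod 3, F (some j) := by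
  have h1 : ∀ s, (if ι s = none then F (τ s) else 0) =
      (if ι s = none ∧ τ s = none then F none else 0) +
      ∑ j : ZMod 3, (if τ s = some j then F (some j) else 0) := by
    intro s
    cases hτ : τ s with
    | none => simp
    | some j =>
      have h2 : ι s = none := by
        by_contra h3
        rw [hι s h3] at hτ
        exact absurd hτ (by simp)
      simp [h2]
  rw [Finset.sum_congr rfl (fun s _ => h1 s), Finset.sum_add_distrib, Finset.sum_comm,
    Finset.mul_sum]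
  congr 1
  · rw [← Finset.sum_filter, sum_const, smul_eq_mul, h0]
  · refine Finset.sum_congr rfl fun j _ => ?_
    rw [← Finset.sum_filter, sum_const, smul_eq_mul, hq j]

/-- every label is in exactly `m (w0 + 2 wq)` lists of the colours without class -/
theorem cnt_x' {w n : ℕ} (τ : Fin w → Option (ZMod 3)) (ι : Fin w → Option (Fin n))
    (w0 wq : ℕ) (hι : ∀ s, ι s ≠ none → τ s = none)
    (h0 : (univ.filter (fun s => ι s = none ∧ τ s = none)).card = w0)
    (hq : ∀ j, (univ.filter (fun s => τ s = some j)).card = wq)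
    (i : ZMod 3) (W : Finset (ZMod (2 * l + 1)))
    (t : Lh l m r K K1 S) (ht : pt t ≠ i ∨ t.1.2.1 ∈ W) :
    (univ.filter (fun x : Ix m w => ι x.2.2 = none ∧ τ x.2.2 ≠ some i ∧
      t ∈ lsW i W (τ x.2.2) x.1 x.2.1)).card = m * (w0 + 2 * wq) := by
  rw [card_Ix]
  have h1 : ∀ h : Fin m, ∑ s : Fin w, (univ.filter (fun a => ι s = none ∧ τ s ≠ some i ∧
      t ∈ lsW i W (τ s) a h)).card = w0 + 2 * wq := by
    intro h
    have h2 : ∀ s : Fin w, (univ.filter (fun a => ι s = none ∧ τ s ≠ some i ∧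
        t ∈ lsW i W (τ s) a h)).card = if ι s = none then Fc i (pt t) (τ s) else 0 := by
      intro s
      by_cases h3 : ι s = none
      · rw [if_pos h3, ← cnt_a i W (τ s) h t ht]
        congr 1
        ext a
        simp only [mem_filter, h3, true_and]
      · rw [if_neg h3, card_eq_zero, filter_eq_empty_iff]
        intro a _ g
        exact h3 g.1
    rw [Finset.sum_congr rfl (fun s _ => h2 s), sum_types' τ ι w0 wq hι h0 hq, sum_Fc]
    simp only [Fc]
    ring
  rw [Finset.sum_congr rfl (fun h _ => h1 h), sum_const, card_univ, Fintype.card_fin,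
    smul_eq_mul]

theorem cnt_valid' {w n : ℕ} (τ : Fin w → Option (ZMod 3)) (ι : Fin w → Option (Fin n))
    (w0 wq : ℕ) (hι : ∀ s, ι s ≠ none → τ s = none)
    (h0 : (univ.filter (fun s => ι s = none ∧ τ s = none)).card = w0)
    (hq : ∀ j, (univ.filter (fun s => τ s = some j)).card = wq) (i : ZMod 3) :
    (univ.filter (fun x : Ix m w => ι x.2.2 = none ∧ τ x.2.2 ≠ some i)).card =
      (2 * m + 1) * (m * (w0 + 2 * wq)) := by
  rw [card_Ix]
  have h1 : ∀ h : Fin m, ∑ s : Fin w, (univ.filter (fun _ : ZMod (2 * m + 1) =>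
      ι s = none ∧ τ s ≠ some i)).card = (2 * m + 1) * (w0 + 2 * wq) := by
    intro h
    have h2 : ∀ s, (univ.filter (fun _ : ZMod (2 * m + 1) => ι s = none ∧ τ s ≠ some i)).card =
        if ι s = none then
          (fun o : Option (ZMod 3) => if o = some i then 0 else 2 * m + 1) (τ s) else 0 := by
      intro s
      by_cases h4 : ι s = none
      · by_cases h3 : τ s = some i
        · simp [h3]
        · simp only [h3, h4, not_false_eq_true, ne_eq, and_self, filter_true, card_univ,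
            card_zmod, if_false, if_true]
      · simp [h4]
    rw [Finset.sum_congr rfl (fun s _ => h2 s), sum_types' τ ι w0 wq hι h0 hq
      (fun o : Option (ZMod 3) => if o = some i then 0 else 2 * m + 1)]
    have h4 : ∑ j : ZMod 3, (if (some j : Option (ZMod 3)) = some i then 0 else 2 * m + 1) =
        2 * (2 * m + 1) := by
      simp only [Option.some_inj]
      rw [Finset.sum_ite, sum_const_zero, zero_add, sum_const, filter_not, filter_eq',
        if_pos (mem_univ _), card_sdiff_of_subset (subset_univ _), card_singleton, card_univ,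
        ZMod.card, smul_eq_mul]
    simp only [h4]
    simp only [reduceCtorEq, if_false]
    ring
  rw [Finset.sum_congr rfl (fun h _ => h1 h), sum_const, card_univ, Fintype.card_fin,
    smul_eq_mul]
  ring

/-- number of the colours of the class `j` -/
theorem cnt_cv {w n : ℕ} (ι : Fin w → Option (Fin n)) (wc : ℕ) (j : Fin n)
    (hc : (univ.filter (fun s => ι s = some j)).card = wc) :
    (univ.filter (fun x : Ix m w => ι x.2.2 = some j)).card = (2 * m + 1) * (m * wc) := by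
  rw [card_Ix]
  have h1 : ∀ h : Fin m, ∑ s : Fin w, (univ.filter (fun _ : ZMod (2 * m + 1) =>
      ι s = some j)).card = (2 * m + 1) * wc := by
    intro h
    have h2 : ∀ s, (univ.filter (fun _ : ZMod (2 * m + 1) => ι s = some j)).card =
        if ι s = some j then 2 * m + 1 else 0 := by
      intro s
      by_cases h4 : ι s = some j
      · simp only [h4, filter_true, card_univ, card_zmod, if_true]
      · simp [h4]
    rw [Finset.sum_congr rfl (fun s _ => h2 s), ← Finset.sum_filter, sum_const, smul_eq_mul, hc]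
    ring
  rw [Finset.sum_congr rfl (fun h _ => h1 h), sum_const, card_univ, Fintype.card_fin,
    smul_eq_mul]
  ring

/-- number of the colours of the class `j` with lists in the cell `z` -/
theorem cnt_c {w n : ℕ} (ι : Fin w → Option (Fin n)) (wc : ℕ) (j : Fin n)
    (hc : (univ.filter (fun s => ι s = some j)).card = wc) (z : ZMod (2 * m + 1)) :
    (univ.filter (fun x : Ix m w => ι x.2.2 = some j ∧
      z = x.1 + (((x.2.1 : ℕ) + 1 : ℕ) : ZMod (2 * m + 1)))).card = m * wc := by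
  rw [card_Ix]
  have h1 : ∀ h : Fin m, ∑ s : Fin w, (univ.filter (fun a : ZMod (2 * m + 1) =>
      ι s = some j ∧ z = a + (((h : ℕ) + 1 : ℕ) : ZMod (2 * m + 1)))).card = wc := by
    intro h
    have h2 : ∀ s, (univ.filter (fun a : ZMod (2 * m + 1) => ι s = some j ∧
        z = a + (((h : ℕ) + 1 : ℕ) : ZMod (2 * m + 1)))).card =
        if ι s = some j then 1 else 0 := by
      intro s
      by_cases h4 : ι s = some j
      · rw [if_pos h4]
        have e1 : (univ.filter (fun a : ZMod (2 * m + 1) => ι s = some j ∧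
            z = a + (((h : ℕ) + 1 : ℕ) : ZMod (2 * m + 1)))) =
            {z - (((h : ℕ) + 1 : ℕ) : ZMod (2 * m + 1))} := by
          ext a
          rw [mem_filter, mem_singleton]
          constructor
          · rintro ⟨_, _, g⟩
            rw [g]; ring
          · intro g
            refine ⟨mem_univ _, h4, ?_⟩
            rw [g]; ring
        rw [e1, card_singleton]
      · simp [h4]
    rw [Finset.sum_congr rfl (fun s _ => h2 s), ← Finset.sum_filter, sum_const, smul_eq_mul, hc,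
      mul_one]
  rw [Finset.sum_congr rfl (fun h _ => h1 h), sum_const, card_univ, Fintype.card_fin,
    smul_eq_mul]

/-- labels of a cell -/
noncomputable def pA (z : ZMod (2 * m + 1)) : Finset (Lh l m r K K1 S) := cy {z} univ

theorem mem_pA {z : ZMod (2 * m + 1)} {t : Lh l m r K K1 S} : t ∈ pA z ↔ ce t = z := by
  unfold pA
  rw [mem_cy, mem_singleton]
  simp

theorem den_pA (z : ZMod (2 * m + 1)) :
    den (pA z : Finset (Lh l m r K K1 S)) = 1 / (2 * (m : ℝ) + 1) := by
  unfold pA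
  rw [den_cy, card_singleton, card_univ, card_core]
  have h1 : (0 : ℝ) < 2 * (m : ℝ) + 1 := by positivity
  have h2 : (0 : ℝ) < 2 * (l : ℝ) + 1 := by positivity
  have h3 : (0 : ℝ) < (S : ℝ) + 1 := by positivity
  push_cast
  field_simp

/-- labels `inM` of a cell with given subcell -/
noncomputable def pB (z : ZMod (2 * m + 1)) (y : Fin (r + 1)) : Finset (Lh l m r K K1 S) :=
  bb {z} (Wm l ×ˢ (univ : Finset (ZMod 3 × ZMod (S + 1)))) {y} univ univ univ

theorem mem_pB {z : ZMod (2 * m + 1)} {y : Fin (r + 1)} {t : Lh l m r K K1 S} :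
    t ∈ pB z y ↔ ce t = z ∧ su t = y ∧ inM t := by
  unfold pB
  rw [mem_bb, mem_singleton, mem_singleton, mem_product]
  unfold Wm
  rw [mem_filter]
  unfold inM
  simp only [mem_univ, true_and, and_true]
  tauto

theorem den_pB (hl : 2 ≤ l) (z : ZMod (2 * m + 1)) (y : Fin (r + 1)) :
    den (pB z y : Finset (Lh l m r K K1 S)) =
      (2 * (l : ℝ) - 3) / ((2 * (l : ℝ) + 1) * ((2 * (m : ℝ) + 1) * ((r : ℝ) + 1))) := by
  unfold pB
  rw [den_bb, card_product, card_Wm l hl, card_singleton, card_singleton, card_univ, card_univ,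
    card_univ, card_univ, Fintype.card_prod, card_zmod, card_zmod, ZMod.card, Fintype.card_fin,
    Fintype.card_fin]
  have h0 : ((2 * l - 3 : ℕ) : ℝ) = 2 * (l : ℝ) - 3 := by
    rw [Nat.cast_sub (by omega)]; push_cast; ring
  have h1 : (0 : ℝ) < 2 * (m : ℝ) + 1 := by positivity
  have h2 : (0 : ℝ) < 2 * (l : ℝ) + 1 := by positivity
  have h3 : (0 : ℝ) < (S : ℝ) + 1 := by positivity
  have h4 : (0 : ℝ) < (K : ℝ) + 1 := by positivity
  have h5 : (0 : ℝ) < (K1 : ℝ) + 1 := by positivity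
  have h6 : (0 : ℝ) < (r : ℝ) + 1 := by positivity
  push_cast [h0]
  field_simp

end cnt

section low
variable {V : Type u} [Fintype V] {l m r K K1 S : ℕ}

/-- a lower bound for the degree into a set of labels outside `UH` -/
theorem low2 {d : ℕ} {G : SimpleGraph V} {σ c1 : ℝ} {UH : Finset V}
    {lab : V → Lh l m r K K1 S} (hL : LabP G d σ c1 lab) (h2 : ∀ v, (nb G v ∩ UH).card ≤ 2)
    (u : V) (P : Finset (Lh l m r K K1 S)) :
    den P * (nb G u).card - σ * d - 2 ≤
      (((nb G u).filter (fun v => v ∉ UH ∧ lab v ∈ P)).card : ℝ) := by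
  have h1 := hL.deg u P
  rw [abs_le] at h1
  have h3 : nb G u ∩ cl lab P ⊆
      (nb G u).filter (fun v => v ∉ UH ∧ lab v ∈ P) ∪ (nb G u ∩ UH) := by
    intro v hv
    rw [mem_inter, mem_cl] at hv
    rw [mem_union, mem_filter, mem_inter]
    by_cases hU : v ∈ UH
    · exact Or.inr ⟨hv.1, hU⟩
    · exact Or.inl ⟨hv.1, hU, hv.2⟩
  have h4 := (card_le_card h3).trans (card_union_le _ _)
  have h5 := h2 u
  have h7 : (((nb G u ∩ UH).card : ℕ) : ℝ) ≤ 2 := by exact_mod_cast h5
  have h8 : ((nb G u ∩ cl lab P).card : ℝ) ≤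
      (((nb G u).filter (fun v => v ∉ UH ∧ lab v ∈ P)).card : ℝ) + ((nb G u ∩ UH).card : ℝ) := by
    exact_mod_cast h4
  linarith [h1.1]

end low

/-! numbers; `q = D / N ^ 2` -/

theorem numC1 {N Λ R q X Y M t : ℝ} (hq : 1000 ≤ q) (hΛ : 41 ≤ Λ) (hR : 1 ≤ R)
    (hN : 1000 * R ≤ N) (hX : q * N ^ 2 - 1 / (32 * N) * (q * N ^ 2) ≤ X)
    (hY : (1 - 1 / (32 * N)) * (q * N ^ 2) ≤ Y)
    (hM : N * M ≤ (1 + 3 / N) * (q * N ^ 2)) (ht : t ≤ q / 32) :
    M + t + 1 ≤ (1 / N * X - 1 / (32 * N ^ 2) * (q * N ^ 2) - 2) +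
      ((Λ - 4) / (Λ * (N * R)) * Y - 1 / (32 * N ^ 2) * (q * N ^ 2) - 2) := by
  have hN0 : 0 < N := by linarith
  have hR0 : 0 < R := by linarith
  have hΛ0 : 0 < Λ := by linarith
  have a1 : 1 / (32 * N ^ 2) * (q * N ^ 2) = q / 32 := by field_simp
  have a2 : M ≤ (N + 3) * q := by
    have h1 : N * M ≤ N * ((N + 3) * q) := by
      refine hM.trans (le_of_eq ?_)
      field_simp
    exact le_of_mul_le_mul_left h1 hN0
  have a3 : q * N - q / 32 ≤ 1 / N * X := by
    refine le_trans (le_of_eq ?_) (mul_le_mul_of_nonneg_left hX (by positivity))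
    field_simp
  have a4 : 800 * q ≤ (Λ - 4) / (Λ * (N * R)) * Y := by
    have h0 : 0 ≤ (Λ - 4) / (Λ * (N * R)) := div_nonneg (by linarith) (by positivity)
    refine le_trans ?_ (mul_le_mul_of_nonneg_left hY h0)
    have h1 : (Λ - 4) / (Λ * (N * R)) * ((1 - 1 / (32 * N)) * (q * N ^ 2)) =
        q * ((Λ - 4) / Λ) * ((N - 1 / 32) / R) := by
      field_simp
    rw [h1]
    have h2 : 9 / 10 ≤ (Λ - 4) / Λ := by rw [le_div_iff₀ hΛ0]; linarith
    have h3 : 990 ≤ (N - 1 / 32) / R := by rw [le_div_iff₀ hR0]; linarith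
    have h4 : q * (9 / 10) ≤ q * ((Λ - 4) / Λ) := mul_le_mul_of_nonneg_left h2 (by linarith)
    have h5 : q * (9 / 10) * 990 ≤ q * ((Λ - 4) / Λ) * ((N - 1 / 32) / R) :=
      mul_le_mul h4 h3 (by norm_num) (le_trans (by linarith) h4)
    linarith
  rw [a1]
  linarith

theorem numC2 {N q X M t : ℝ} (hq : 1000 ≤ q) (hN : 3 ≤ N)
    (hX : X ≤ q * N ^ 2 + 1 / (32 * N) * (q * N ^ 2))
    (hM : (1 + 1 / (2 * N)) * (q * N ^ 2) ≤ N * M) (ht : t ≤ q / 32) :
    1 / N * X + 1 / (32 * N ^ 2) * (q * N ^ 2) + t + 4 ≤ M := by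
  have hN0 : 0 < N := by linarith
  have a1 : 1 / (32 * N ^ 2) * (q * N ^ 2) = q / 32 := by field_simp
  have a2 : (N + 1 / 2) * q ≤ M := by
    have h1 : N * ((N + 1 / 2) * q) ≤ N * M := by
      refine le_trans (le_of_eq ?_) hM
      field_simp
    exact le_of_mul_le_mul_left h1 hN0
  have a3 : 1 / N * X ≤ q * N + q / 32 := by
    refine (mul_le_mul_of_nonneg_left hX (by positivity)).trans (le_of_eq ?_)
    field_simp
  rw [a1]
  linarith

theorem numC3 {N q X M Y : ℝ} (hq : 1000 ≤ q) (hN : 3 ≤ N)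
    (hX : q * N ^ 2 - 1 / (32 * N) * (q * N ^ 2) ≤ X)
    (hM : N * M ≤ (1 + 3 / N) * (q * N ^ 2))
    (hY : 1 / N * X - 1 / (32 * N ^ 2) * (q * N ^ 2) - 2 ≤ Y) : M - Y ≤ 4 * q := by
  have hN0 : 0 < N := by linarith
  have a1 : 1 / (32 * N ^ 2) * (q * N ^ 2) = q / 32 := by field_simp
  have a2 : M ≤ (N + 3) * q := by
    have h1 : N * M ≤ N * ((N + 3) * q) := by
      refine hM.trans (le_of_eq ?_)
      field_simp
    exact le_of_mul_le_mul_left h1 hN0
  have a3 : q * N - q / 32 ≤ 1 / N * X := by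
    refine le_trans (le_of_eq ?_) (mul_le_mul_of_nonneg_left hX (by positivity))
    field_simp
  rw [a1] at hY
  linarith

/-- as `numA` of LCH with a loss `e` -/
theorem numA2 {N Λ d X M t σ e : ℝ} (hN : 3 ≤ N) (hΛ : 41 ≤ Λ)
    (hd : 100 * (N * Λ) ≤ d) (hX1 : (1 - 1 / (24 * Λ)) * d ≤ X)
    (ht : t ≤ d / (32 * (N * Λ))) (hM : N * M ≤ (1 - 1 / (2 * Λ)) * d)
    (hσ : σ * d ≤ d / (32 * (N * Λ))) (he : e ≤ d / (1000 * (N * Λ))) :
    M + t + 1 + e ≤
      1 / N * (2 / 3 + (Λ - 1) / (3 * Λ)) * X - σ * d - 2 := by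
  have hN0 : 0 < N := by linarith
  have hΛ0 : 0 < Λ := by linarith
  have hd0 : 0 < d := lt_of_lt_of_le (by positivity) hd
  obtain ⟨s, hs⟩ : ∃ s, s = d / (N * Λ) := ⟨_, rfl⟩
  have hds : d = s * (N * Λ) := by rw [hs]; field_simp
  have hs16 : 100 ≤ s := by rw [hs, le_div_iff₀ (by positivity)]; exact hd
  have a0 : d / (32 * (N * Λ)) = s / 32 := by rw [hds]; field_simp
  have a0' : d / (1000 * (N * Λ)) = s / 1000 := by rw [hds]; field_simp
  have a2 : M ≤ s * Λ - s / 2 := by
    have h1 : N * M ≤ N * (s * Λ - s / 2) := by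
      refine hM.trans (le_of_eq ?_)
      rw [hds]; field_simp
    exact le_of_mul_le_mul_left h1 hN0
  have a4 : s * Λ - 3 * s / 8 ≤ 1 / N * (2 / 3 + (Λ - 1) / (3 * Λ)) * X := by
    have h0 : 0 ≤ 1 / N * (2 / 3 + (Λ - 1) / (3 * Λ)) := by
      have : 0 ≤ (Λ - 1) / (3 * Λ) := div_nonneg (by linarith) (by positivity)
      exact mul_nonneg (by positivity) (by linarith)
    refine le_trans ?_ (mul_le_mul_of_nonneg_left hX1 h0)
    have h2 : 1 / N * (2 / 3 + (Λ - 1) / (3 * Λ)) * ((1 - 1 / (24 * Λ)) * d) =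
        s * Λ - s / 24 - s / 3 + s / 72 * (1 / Λ) := by
      rw [hds]; field_simp; ring
    rw [h2]
    have h3 : 0 ≤ s / 72 * (1 / Λ) := by positivity
    linarith
  rw [a0] at ht hσ
  rw [a0'] at he
  linarith

theorem numS2 {N Λ d X M t σ : ℝ} (hN : 3 ≤ N) (hΛ : 41 ≤ Λ) (hd : 100 * (N * Λ) ≤ d)
    (hX2 : X ≤ d) (ht : t ≤ d / (32 * (N * Λ))) (hM : (1 - 1 / Λ) * d ≤ N * M)
    (hσ : σ * d ≤ d / (32 * (N * Λ))) :
    1 / N * (2 / 3 + (Λ - 4) / (3 * Λ)) * X + σ * d + t + 4 ≤ M := by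
  have hN0 : 0 < N := by linarith
  have hΛ0 : 0 < Λ := by linarith
  have hd0 : 0 < d := lt_of_lt_of_le (by positivity) hd
  obtain ⟨s, hs⟩ : ∃ s, s = d / (N * Λ) := ⟨_, rfl⟩
  have hds : d = s * (N * Λ) := by rw [hs]; field_simp
  have hs16 : 100 ≤ s := by rw [hs, le_div_iff₀ (by positivity)]; exact hd
  have a0 : d / (32 * (N * Λ)) = s / 32 := by rw [hds]; field_simp
  have a2 : s * Λ - s ≤ M := by
    have h1 : N * (s * Λ - s) ≤ N * M := by
      refine le_trans (le_of_eq ?_) hM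
      rw [hds]; field_simp
    exact le_of_mul_le_mul_left h1 hN0
  have a4 : 1 / N * (2 / 3 + (Λ - 4) / (3 * Λ)) * X ≤ s * Λ - 4 / 3 * s := by
    have h0 : 0 ≤ 1 / N * (2 / 3 + (Λ - 4) / (3 * Λ)) := by
      have : 0 ≤ (Λ - 4) / (3 * Λ) := div_nonneg (by linarith) (by positivity)
      exact mul_nonneg (by positivity) (by linarith)
    refine (mul_le_mul_of_nonneg_left hX2 h0).trans (le_of_eq ?_)
    rw [hds]; field_simp; ring
  rw [a0] at ht hσ
  linarith

theorem numB2 {N Λ d X W t σ : ℝ} (hN : 3 ≤ N) (hΛ : 41 ≤ Λ) (hd : 100 * (N * Λ) ≤ d)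
    (hX1 : (1 - 1 / (24 * Λ)) * d ≤ X) (hW : W ≤ d / (12 * Λ))
    (ht : t ≤ d / (32 * (N * Λ))) (hσ : σ * d ≤ d / (32 * (N * Λ))) :
    W + t + 2 ≤ 1 / (5 * Λ) * X - σ * d - 2 := by
  have hN0 : 0 < N := by linarith
  have hΛ0 : 0 < Λ := by linarith
  obtain ⟨s, hs⟩ : ∃ s, s = d / Λ := ⟨_, rfl⟩
  have hds : d = s * Λ := by rw [hs]; field_simp
  have hs48 : 300 ≤ s := by
    rw [hs, le_div_iff₀ hΛ0]
    nlinarith
  have a1 : d / (32 * (N * Λ)) ≤ s / 96 := by
    have : d / (32 * (N * Λ)) = s / 32 * (1 / N) := by rw [hds]; field_simp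
    rw [this]
    have h1 : 1 / N ≤ 1 / 3 := one_div_le_one_div_of_le (by norm_num) hN
    nlinarith
  have a2 : d / (12 * Λ) = s / 12 := by rw [hds]; field_simp
  have a3 : s / 5 - s / 120 ≤ 1 / (5 * Λ) * X := by
    have h1 : 1 / (5 * Λ) * ((1 - 1 / (24 * Λ)) * d) ≤ 1 / (5 * Λ) * X :=
      mul_le_mul_of_nonneg_left hX1 (by positivity)
    refine le_trans ?_ h1
    have h2 : 1 / (5 * Λ) * ((1 - 1 / (24 * Λ)) * d) = s / 5 - s / 120 * (1 / Λ) := by
      rw [hds]; field_simp; ring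
    rw [h2]
    have h3 : 1 / Λ ≤ 1 := by rw [div_le_one hΛ0]; linarith
    have h4 : s / 120 * (1 / Λ) ≤ s / 120 * 1 := mul_le_mul_of_nonneg_left h3 (by linarith)
    linarith
  rw [a2] at hW
  linarith

end Pool.Agent.Work.MP_db9399_ot.helper29
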